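import Pool.Agent.Q80.KT.Stm

/-!
# Witnesses for the balls of the Kesten tree (project KT of helper80, job KT-WIT)
-/

open Finset MeasureTheory Filter Topology
open scoped Classical ENNReal NNReal

namespace Q252.KT.WIT

open Pool.Agent.Q80.KT

section tree

variable {X : List ℕ → ℕ}

theorem inT_of_reach {a w : List ℕ} (h : (kTree X).Reachable a w) (ha : InT X a) : InT X w := by
  obtain ⟨p⟩ := h
  induction p with
  | nil => exact ha
  | cons h p ih => exact ih h.2.1

theorem len_le {a w : List ℕ} (p : (kTree X).Walk a w) : w.length ≤ a.length + p.length := by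
  induction p with
  | nil => simp
  | cons h p ih =>
    rw [SimpleGraph.Walk.length_cons]
    rcases h.2.2 with ⟨i, hi⟩ | ⟨i, hi⟩
    · have := congrArg List.length hi
      rw [List.length_cons] at this
      omega
    · have := congrArg List.length hi
      rw [List.length_cons] at this
      omega

theorem reach_of_inT : ∀ w : List ℕ, InT X w →
    (kTree X).Reachable [] w ∧ (kTree X).dist [] w ≤ w.length := by
  intro w
  induction w with
  | nil => exact fun _ => ⟨SimpleGraph.Reachable.refl _, by simp⟩
  | cons i w ih =>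
    intro h
    obtain ⟨h1, h2⟩ := ih h.1
    have hadj : (kTree X).Adj w (i :: w) := ⟨h.1, h, Or.inr ⟨i, rfl⟩⟩
    refine ⟨h1.trans hadj.reachable, ?_⟩
    obtain ⟨p, hp⟩ := h1.exists_walk_length_eq_dist
    have h3 := SimpleGraph.dist_le (p.concat hadj)
    rw [SimpleGraph.Walk.length_concat, hp] at h3
    rw [List.length_cons]
    omega

theorem ball_iff (r : ℕ) (w : List ℕ) :
    ((kTree X).Reachable [] w ∧ (kTree X).dist [] w ≤ r) ↔ (InT X w ∧ w.length ≤ r) := by
  constructor
  · rintro ⟨h1, h2⟩
    refine ⟨inT_of_reach h1 trivial, ?_⟩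
    obtain ⟨p, hp⟩ := h1.exists_walk_length_eq_dist
    have h3 := len_le p
    rw [List.length_nil] at h3
    omega
  · rintro ⟨h1, h2⟩
    obtain ⟨h3, h4⟩ := reach_of_inT w h1
    exact ⟨h3, h4.trans h2⟩

end tree

section lab

variable {k : ℕ} {F : SimpleGraph (Fin k)} {u : Fin k} {φ : Fin k → List ℕ}

theorem lab_up (hL : Lab F u φ) : ∀ (n : ℕ) (a : Fin k), (φ a).length = n →
    F.Reachable u a ∧ F.dist u a ≤ n := by
  intro n
  induction n with
  | zero =>
    intro a ha
    have h1 : φ a = φ u := by
      rw [hL.1]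
      exact List.length_eq_zero_iff.1 ha
    have h2 : a = u := hL.2.1 h1
    subst h2
    exact ⟨SimpleGraph.Reachable.refl _, by simp⟩
  | succ n ih =>
    intro a ha
    have h1 : a ≠ u := by
      rintro rfl
      rw [hL.1] at ha
      simp at ha
    obtain ⟨b, i, hab, hi⟩ := hL.2.2.2.1 a h1
    have h2 : (φ b).length = n := by
      rw [hi, List.length_cons] at ha
      omega
    obtain ⟨h3, h4⟩ := ih b h2
    refine ⟨h3.trans hab.symm.reachable, ?_⟩
    obtain ⟨p, hp⟩ := h3.exists_walk_length_eq_dist
    have h5 := SimpleGraph.dist_le (p.concat hab.symm)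
    rw [SimpleGraph.Walk.length_concat, hp] at h5
    omega

theorem lab_len (hL : Lab F u φ) {a b : Fin k} (p : F.Walk a b) :
    (φ b).length ≤ (φ a).length + p.length := by
  induction p with
  | nil => simp
  | cons h p ih =>
    rw [SimpleGraph.Walk.length_cons]
    rcases (hL.2.2.1 _ _).1 h with ⟨i, hi⟩ | ⟨i, hi⟩
    · have := congrArg List.length hi
      rw [List.length_cons] at this
      omega
    · have := congrArg List.length hi
      rw [List.length_cons] at this
      omega

theorem lab_dist (hL : Lab F u φ) (a : Fin k) : F.dist u a = (φ a).length := by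
  obtain ⟨h1, h2⟩ := lab_up hL _ a rfl
  obtain ⟨p, hp⟩ := h1.exists_walk_length_eq_dist
  have h3 := lab_len hL p
  rw [hL.1, List.length_nil] at h3
  omega

theorem down_eq (s : Finset ℕ) (hs : ∀ j ∈ s, ∀ i, i < j → i ∈ s) : s = range s.card := by
  refine Finset.eq_of_subset_of_card_le (fun j hj => ?_) (by rw [Finset.card_range])
  rw [Finset.mem_range]
  have h1 : range (j + 1) ⊆ s := by
    intro i hi
    rw [Finset.mem_range] at hi
    rcases Nat.lt_succ_iff_lt_or_eq.1 hi with h | h
    · exact hs j hj i h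
    · rwa [h]
  have h2 := Finset.card_le_card h1
  rw [Finset.card_range] at h2
  omega

theorem child_iff (hL : Lab F u φ) (a : Fin k) (i : ℕ) :
    (∃ b, φ b = i :: φ a) ↔ i < nch F u a := by
  have h1 : nch F u a = (univ.filter fun b => ∃ i, φ b = i :: φ a).card := by
    unfold nch
    congr 1
    refine Finset.filter_congr fun b _ => ?_
    rw [lab_dist hL, lab_dist hL]
    constructor
    · rintro ⟨hab, hl⟩
      rcases (hL.2.2.1 a b).1 hab with ⟨i, hi⟩ | h
      · rw [hi, List.length_cons] at hl
        omega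
      · exact h
    · rintro ⟨i, hi⟩
      exact ⟨(hL.2.2.1 a b).2 (Or.inr ⟨i, hi⟩), by rw [hi, List.length_cons]⟩
  set s : Finset ℕ := (univ.filter fun b => ∃ i, φ b = i :: φ a).image fun b => (φ b).headI with hs
  have hmem : ∀ i, i ∈ s ↔ ∃ b, φ b = i :: φ a := by
    intro i
    rw [hs, Finset.mem_image]
    constructor
    · rintro ⟨b, hb, hbi⟩
      rw [Finset.mem_filter] at hb
      obtain ⟨-, j, hj⟩ := hb
      rw [hj, List.headI_cons] at hbi
      exact ⟨b, by rw [hj, hbi]⟩
    · rintro ⟨b, hb⟩
      exact ⟨b, Finset.mem_filter.2 ⟨Finset.mem_univ _, i, hb⟩, by rw [hb, List.headI_cons]⟩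
  have hcard : s.card = nch F u a := by
    rw [h1, hs, Finset.card_image_of_injOn]
    intro b hb b' hb' hbb
    rw [Finset.mem_coe, Finset.mem_filter] at hb hb'
    obtain ⟨-, j, hj⟩ := hb
    obtain ⟨-, j', hj'⟩ := hb'
    apply hL.2.1
    simp only at hbb
    rw [hj, hj', List.headI_cons, List.headI_cons] at hbb
    rw [hj, hj', hbb]
  have h2 := down_eq s fun j hj i hij => by
    rw [hmem] at hj ⊢
    exact hL.2.2.2.2 a i j hij hj
  rw [← hmem, h2, Finset.mem_range, hcard]

end lab

/-- **job KT-WIT** -/
theorem t_WIT : S_WIT := by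
  intro k F u r X φ _ hr
  constructor
  · rintro ⟨hinj, hu, hrange, hadj⟩
    have hrg : ∀ w, (∃ a, φ a = w) ↔ (InT X w ∧ w.length ≤ r) := fun w =>
      (hrange w).trans (ball_iff r w)
    have hT : ∀ a, InT X (φ a) ∧ (φ a).length ≤ r := fun a => (hrg _).1 ⟨a, rfl⟩
    have hL : Lab F u φ := by
      refine ⟨hu, hinj, fun a b => ?_, fun a ha => ?_, fun a i j hij => ?_⟩
      · rw [hadj]
        exact ⟨fun h => h.2.2, fun h => ⟨(hT a).1, (hT b).1, h⟩⟩
      · obtain ⟨h1, h2⟩ := hT a
        have hne : φ a ≠ [] := fun h => ha (hinj (by rw [h, hu]))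
        obtain ⟨i, w, hw⟩ := List.exists_cons_of_ne_nil hne
        rw [hw] at h1 h2
        rw [List.length_cons] at h2
        obtain ⟨b, hb⟩ := (hrg w).2 ⟨h1.1, by omega⟩
        have hab : φ a = i :: φ b := by rw [hw, hb]
        exact ⟨b, i, (hadj a b).2 ⟨(hT a).1, (hT b).1, Or.inl ⟨i, hab⟩⟩, hab⟩
      · intro h
        obtain ⟨h1, h2⟩ := (hrg _).1 h
        refine (hrg _).2 ⟨⟨h1.1, lt_trans hij h1.2⟩, ?_⟩
        rw [List.length_cons] at h2 ⊢
        exact h2
    refine ⟨hL, fun a ha => ?_⟩
    rw [lab_dist hL] at ha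
    have key : ∀ i, i < kids X (φ a) ↔ i < nch F u a := by
      intro i
      rw [← child_iff hL, hrg]
      constructor
      · intro h
        exact ⟨⟨(hT a).1, h⟩, by rw [List.length_cons]; omega⟩
      · intro h
        exact h.1.2
    apply le_antisymm
    · by_contra h
      exact lt_irrefl _ ((key _).1 (not_le.1 h))
    · by_contra h
      exact lt_irrefl _ ((key _).2 (not_le.1 h))
  · rintro ⟨hL, hk⟩
    have h1 : ∀ (n : ℕ) (a : Fin k), (φ a).length = n → InT X (φ a) := by
      intro n
      induction n with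
      | zero =>
        intro a ha
        rw [List.length_eq_zero_iff.1 ha]
        trivial
      | succ n ih =>
        intro a ha
        have hne : a ≠ u := by
          rintro rfl
          rw [hL.1] at ha
          simp at ha
        obtain ⟨b, i, hab, hi⟩ := hL.2.2.2.1 a hne
        have h2 : (φ b).length = n := by
          rw [hi, List.length_cons] at ha
          omega
        have h3 := hr a
        rw [lab_dist hL, ha] at h3
        have h4 := hk b (by rw [lab_dist hL]; omega)
        rw [hi]
        exact ⟨ih b h2, by rw [h4]; exact (child_iff hL b i).1 ⟨a, hi⟩⟩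
    have hT : ∀ a, InT X (φ a) := fun a => h1 _ a rfl
    refine ⟨hL.2.1, hL.1, fun w => ?_, fun a b => ?_⟩
    · rw [ball_iff]
      constructor
      · rintro ⟨a, rfl⟩
        refine ⟨hT a, ?_⟩
        rw [← lab_dist hL]
        exact hr a
      · induction w with
        | nil => exact fun _ => ⟨u, hL.1⟩
        | cons i w ih =>
          rintro ⟨h2, h3⟩
          rw [List.length_cons] at h3
          obtain ⟨a, ha⟩ := ih ⟨h2.1, by omega⟩
          have h4 := h2.2
          rw [← ha, hk a (by rw [lab_dist hL, ha]; omega), ← child_iff hL] at h4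
          rw [← ha]
          exact h4
    · rw [hL.2.2.1]
      exact ⟨fun h => ⟨hT a, hT b, h⟩, fun h => h.2.2⟩

end Q252.KT.WIT
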